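import Mathlib
import Pool.Agent.H8.MG.Defs
import Pool.Agent.H8.MG.Main

set_option autoImplicit false

namespace Pool.Agent.Results.MP_ee56ef_an.Disproof

open Pool.Agent.H8.MG

/-- The converse of Nitecki's theorem fails, even for strictly increasing `k_1 < … < k_m` with
greatest common divisor `1`. -/
theorem result : ∃ (m n : ℕ) (k : Fin m → ℕ), Hyp m n k ∧ StrictMono k ∧
    (∀ g : ℕ, (∀ i, g ∣ k i) → g = 1) ∧
    ∃ s ∈ subsums m k, ∃ t ∈ subsums m k, s ≠ t ∧ s ≡ t [MOD n] := by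
  refine ⟨5, 28, ![1, 8, 16, 32, 48], ex28, ?_, ?_, 0, ⟨∅, by simp⟩, 56, ⟨{1, 4}, ?_⟩, by norm_num,
    ?_⟩
  · intro i j hij
    revert i j
    decide
  · intro g hg
    have := hg 0
    simpa using this
  · decide
  · decide

end Pool.Agent.Results.MP_ee56ef_an.Disproof
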